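import Mathlib
import Pool.Agent.N345.Two.Main

set_option autoImplicit false

/-!
# Dimension two: variational sets of the maximal size `n - 1`

The cells with a given symbol of a latin square are the graph of a permutation. If `n` is not a
prime power, then the `n (n - 1)` permutations of a variational set of `n - 1` latin squares of
order `n` are far from closed under composition: for every identification of the columns with the
rows, at least one out of 64 products is not one of the permutations.
-/

namespace Pool.Agent.Results.MP_c7a479_co.AlmostClosedCompleteSets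

/-- `L` is a latin square of order `n` (a two-dimensional permutation cube): `L r c` is the symbol
in row `r` and column `c`. -/
structure IsLatin {n : ℕ} (L : Fin n → Fin n → Fin n) : Prop where
  row : ∀ r, Function.Bijective (L r)
  col : ∀ c, Function.Bijective fun r => L r c

/-- `L` and `M` are orthogonal (form a variational cube): every ordered pair of symbols is obtained
at exactly one cell. -/
def Orthogonal {n : ℕ} (L M : Fin n → Fin n → Fin n) : Prop :=
  Function.Bijective fun x : Fin n × Fin n => (L x.1 x.2, M x.1 x.2)

/-- The pair consisting of the symbol `x.1.2` of the square number `x.1.1` and of the symbol `x.2.2`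
of the square number `x.2.1` is closed: the composition of the permutation `row ↦ column` of the
cells of the second one, of the identification `π` of the columns with the rows, and of the
permutation `row ↦ column` of the cells of the first one is the permutation `row ↦ column` of some
symbol `s` of some square number `k`. -/
def Closed {n m : ℕ} (L : Fin m → Fin n → Fin n → Fin n) (π : Equiv.Perm (Fin n))
    (x : (Fin m × Fin n) × (Fin m × Fin n)) : Prop :=
  ∃ (k : Fin m) (s : Fin n), ∀ a b d, L x.2.1 a b = x.2.2 → L x.1.1 (π b) d = x.1.2 → L k a d = s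

/-- Let `L 0, ..., L (n - 2)` be a variational set of `n - 1` latin squares of order `n ≥ 2`, where
`n` is not a prime power. For every bijection `π` from the columns to the rows, at least
`(n (n - 1)) ^ 2 / 64` of the `(n (n - 1)) ^ 2` pairs are not closed. -/
theorem result (n : ℕ) (hn : 2 ≤ n) (hpp : ¬ IsPrimePow n)
    (L : Fin (n - 1) → Fin n → Fin n → Fin n) (hL : ∀ k, IsLatin (L k))
    (hLM : ∀ k l, k ≠ l → Orthogonal (L k) (L l)) (π : Equiv.Perm (Fin n)) :
    (n * (n - 1)) ^ 2 ≤
      64 * Nat.card {x : (Fin (n - 1) × Fin n) × (Fin (n - 1) × Fin n) // ¬ Closed L π x} := by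
  classical
  -- the permutations
  have hex : ∀ q : Fin (n - 1) × Fin n, ∃ e : Equiv.Perm (Fin n), ∀ r, L q.1 r (e r) = q.2 := by
    intro q
    choose f hf using fun r => ((hL q.1).row r).2 q.2
    have hi : Function.Injective f := by
      intro r r' e
      apply ((hL q.1).col (f r)).1
      change L q.1 r (f r) = L q.1 r' (f r)
      rw [hf r, e, hf r']
    exact ⟨Equiv.ofBijective f (Finite.injective_iff_bijective.1 hi), fun r => hf r⟩
  choose e he using hex
  set φ : Fin ((n - 1) * n) ≃ Fin (n - 1) × Fin n := finProdFinEquiv.symm with hφ
  set u : Fin ((n - 1) * n) → Equiv.Perm (Fin n) := fun i => e (φ i) * π with hu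
  have hagree : ∀ q q' : Fin (n - 1) × Fin n, ∀ x y, x ≠ y → e q x = e q' x → e q y = e q' y →
      q = q' := by
    intro q q' x y hxy h1 h2
    have a1 := he q x
    have a2 := he q y
    have b1 := he q' x
    have b2 := he q' y
    rw [← h1] at b1
    rw [← h2] at b2
    have hk : q.1 = q'.1 := by
      by_contra hne
      have h3 := (hLM q.1 q'.1 hne).1 (a₁ := (x, e q x)) (a₂ := (y, e q y)) (by
        simp only
        rw [a1, a2, b1, b2])
      exact hxy (congrArg Prod.fst h3)
    refine Prod.ext hk ?_
    rw [← a1, ← b1, hk]
  have h := Pool.Agent.N345.Two.main hn (mul_comm (n - 1) n) (u := u) (by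
    intro i j x y hxy h1 h2
    exact φ.injective (hagree _ _ (π x) (π y) (fun e' => hxy (π.injective e')) h1 h2)) hpp
  have e0 : n * (n - 1) = (n - 1) * n := mul_comm _ _
  rw [e0]
  refine h.trans (Nat.mul_le_mul_left 64 ?_)
  rw [Pool.Agent.N345.Mol.nb, ← Fintype.card_subtype, ← Nat.card_eq_fintype_card]
  refine Nat.card_le_card_of_injective (fun p => ⟨(φ p.1.1, φ p.1.2), ?_⟩) ?_
  · intro hcl
    apply p.2
    obtain ⟨k, s, hks⟩ := hcl
    refine ⟨φ.symm (k, s), ?_⟩
    have h1 : ∀ r, e (k, s) r = e (φ p.1.1) (π (e (φ p.1.2) r)) := by
      intro r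
      have h2 := hks r (e (φ p.1.2) r) (e (φ p.1.1) (π (e (φ p.1.2) r))) (he _ _) (he _ _)
      apply ((hL k).row r).1
      rw [h2]
      exact he (k, s) r
    ext r
    simp only [hu, Equiv.apply_symm_apply, Equiv.Perm.mul_apply]
    rw [h1]
  · intro p q h1
    simp only [Subtype.mk.injEq, Prod.mk.injEq] at h1
    exact Subtype.ext (Prod.ext (φ.injective h1.1) (φ.injective h1.2))

end Pool.Agent.Results.MP_c7a479_co.AlmostClosedCompleteSets
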