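import Mathlib
import Pool.Agent.N345.Mol.Many

set_option autoImplicit false

/-!
# Dimension two: variational sets beyond the general lower bound are far from group constructions

Let `p ^ a` be the exact power of the prime `p` in `n`. Every variational set of at least `p ^ a`
latin squares of order `n` (that is, every set which beats the general lower bound `p ^ a - 1` for a
suitable `p`) has many violations of the joint quadrangle criterion: at least `n ^ 3 / 128` with
every first row or with every first column.
-/

namespace Pool.Agent.Results.MP_c7a479_co.BeyondMacNeish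

/-- `L` is a latin square of order `n` (a two-dimensional permutation cube): `L r c` is the symbol
in row `r` and column `c`. -/
structure IsLatin {n : ℕ} (L : Fin n → Fin n → Fin n) : Prop where
  row : ∀ r, Function.Bijective (L r)
  col : ∀ c, Function.Bijective fun r => L r c

/-- `L` and `M` are orthogonal (form a variational cube): every ordered pair of symbols is obtained
at exactly one cell. -/
def Orthogonal {n : ℕ} (L M : Fin n → Fin n → Fin n) : Prop :=
  Function.Bijective fun x : Fin n × Fin n => (L x.1 x.2, M x.1 x.2)

/-- `L` with rows and columns interchanged. -/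
def transpose {n : ℕ} (L : Fin n → Fin n → Fin n) : Fin n → Fin n → Fin n := fun c r => L r c

/-- The rows `r₁, r₂, r₃, r₄` and the columns `c₁, c₂, c₃, c₄` violate the joint quadrangle
criterion of `L` and `M`: in the columns `c₁, c₂` of `L` the rows `r₁, r₂` and the rows `r₃, r₄`
agree, but in the columns `c₃, c₄` of `M` the rows `r₁, r₂` agree and the rows `r₃, r₄` do not. For
`L = M` this is a violation of the quadrangle criterion. -/
def Violates {n : ℕ} (L M : Fin n → Fin n → Fin n) (r₁ r₂ r₃ r₄ c₁ c₂ c₃ c₄ : Fin n) : Prop :=
  L r₁ c₁ = L r₂ c₂ ∧ L r₃ c₁ = L r₄ c₂ ∧ M r₁ c₃ = M r₂ c₄ ∧ M r₃ c₃ ≠ M r₄ c₄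

/-- The number of violations with first row `r₁`. -/
noncomputable def violations {n : ℕ} (L M : Fin n → Fin n → Fin n) (r₁ : Fin n) : ℕ :=
  Nat.card {x : (Fin 3 → Fin n) × (Fin 4 → Fin n) //
    Violates L M r₁ (x.1 0) (x.1 1) (x.1 2) (x.2 0) (x.2 1) (x.2 2) (x.2 3)}

/-- Let `p` be a prime divisor of `n`, `p ^ a` the exact power of `p` in `n`, and
`L 0, ..., L (k - 1)` a variational set of `k ≥ p ^ a` latin squares of order `n`. Then every member
`L i` of the set has at least `n ^ 3 / 128` joint violations with some member `L j` (possibly
`L i` itself) with first row `r`, for every row `r`, or the same holds for the transposed squares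
and every column. -/
theorem result (n k p : ℕ) (hp : p.Prime) (hd : p ∣ n) (hk : p ^ n.factorization p ≤ k)
    (L : Fin k → Fin n → Fin n → Fin n) (hL : ∀ i, IsLatin (L i))
    (hO : ∀ i j, i ≠ j → Orthogonal (L i) (L j)) (i : Fin k) :
    (∀ r, ∃ j, n ^ 3 ≤ 128 * violations (L i) (L j) r) ∨
    (∀ c, ∃ j, n ^ 3 ≤ 128 * violations (transpose (L i)) (transpose (L j)) c) :=
  Pool.Agent.N345.Mol.many L (fun i => ⟨(hL i).row, (hL i).col⟩) (fun i j h => (hO i j h).1)
    p hp hd hk i

end Pool.Agent.Results.MP_c7a479_co.BeyondMacNeish
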