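import Mathlib
import Pool.Agent.N345.Mann.Sign

set_option autoImplicit false

/-!
# Dimension two, order `n = 2 mod 4`: the members of variational sets are far from group tables

Every latin square of order `n = 2 mod 4` with an orthogonal mate violates the quadrangle criterion
at least `n ^ 3 / 32` times in every row, and at least `n ^ 4 / 32` times in all.
-/

namespace Pool.Agent.Results.MP_c7a479_co.QuadrangleViolations

/-- `L` is a latin square of order `n` (a two-dimensional permutation cube): `L r c` is the symbol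
in row `r` and column `c`. -/
structure IsLatin {n : ℕ} (L : Fin n → Fin n → Fin n) : Prop where
  row : ∀ r, Function.Bijective (L r)
  col : ∀ c, Function.Bijective fun r => L r c

/-- `L` and `M` are orthogonal (form a variational cube): every ordered pair of symbols is obtained
at exactly one cell. -/
def Orthogonal {n : ℕ} (L M : Fin n → Fin n → Fin n) : Prop :=
  Function.Bijective fun x : Fin n × Fin n => (L x.1 x.2, M x.1 x.2)

/-- The rows `r₁, r₂, r₃, r₄` and the columns `c₁, c₂, c₃, c₄` violate the quadrangle criterion. -/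
def Violates {n : ℕ} (L : Fin n → Fin n → Fin n) (r₁ r₂ r₃ r₄ c₁ c₂ c₃ c₄ : Fin n) : Prop :=
  L r₁ c₁ = L r₂ c₂ ∧ L r₁ c₃ = L r₂ c₄ ∧ L r₃ c₁ = L r₄ c₂ ∧ L r₃ c₃ ≠ L r₄ c₄

/-- Let `L` be a latin square of order `n = 2 mod 4` which is orthogonal to some latin square `M`.
For every row `r₁` there are at least `n ^ 3 / 32` violations of the quadrangle criterion with first
row `r₁`; in all there are at least `n ^ 4 / 32` violations. -/
theorem result (n : ℕ) (hn : n % 4 = 2) (L M : Fin n → Fin n → Fin n) (hL : IsLatin L)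
    (hM : IsLatin M) (hLM : Orthogonal L M) :
    (∀ r₁, n ^ 3 ≤ 32 * Nat.card {x : (Fin 3 → Fin n) × (Fin 4 → Fin n) //
      Violates L r₁ (x.1 0) (x.1 1) (x.1 2) (x.2 0) (x.2 1) (x.2 2) (x.2 3)}) ∧
    n ^ 4 ≤ 32 * Nat.card {x : Fin n × (Fin 3 → Fin n) × (Fin 4 → Fin n) //
      Violates L x.1 (x.2.1 0) (x.2.1 1) (x.2.1 2) (x.2.2 0) (x.2.2 1) (x.2.2 2) (x.2.2 3)} := by
  classical
  have main : ∀ r₁, n ^ 3 ≤ 32 * Nat.card {x : (Fin 3 → Fin n) × (Fin 4 → Fin n) //
      Violates L r₁ (x.1 0) (x.1 1) (x.1 2) (x.2 0) (x.2 1) (x.2 2) (x.2 3)} := by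
    intro r
    set τ : Fin n → Equiv.Perm (Fin n) := fun s => Equiv.ofBijective (L s) (hL.row s) with hτ
    have hτa : ∀ s c, τ s c = L s c := fun s c => rfl
    set u : Fin n → Equiv.Perm (Fin n) := fun s => (τ r).trans (τ s).symm with hu'
    have hua : ∀ s c, L s (u s c) = L r c := by
      intro s c
      rw [← hτa, hu']
      simp only [Equiv.trans_apply, Equiv.apply_symm_apply]
      rfl
    have huq : ∀ s c d, L r c = L s d → u s c = d := by
      intro s c d h
      apply (hL.row s).1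
      rw [hua, h]
    have hu : Pool.Agent.N345.Mann.Sharp u := by
      refine ⟨?_, ?_, ⟨r, ?_⟩⟩
      · intro c c'
        obtain ⟨w, hw⟩ := (hL.col c').2 (L r c)
        exact ⟨w, huq w c c' hw.symm⟩
      · intro w w' c h
        have h1 := hua w c
        have h2 := hua w' c
        rw [h] at h1
        exact (hL.col _).1 (h1.trans h2.symm)
      · ext c
        simp [hu']
    have h1 := Pool.Agent.N345.Mann.many_fail hn hu hM.row (fun c s t h => (hM.col c).1 h) (by
      intro s t c d h1 d' h2 h3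
      have e1 : L s d = L t d' := by rw [← h1, ← h2, hua, hua]
      have e2 := hLM.1 (a₁ := (s, d)) (a₂ := (t, d')) (Prod.ext e1 h3)
      exact congrArg Prod.fst e2)
    refine h1.trans (Nat.mul_le_mul_left 32 ?_)
    have e1 : Pool.Agent.N345.Mann.F u =
        Nat.card {q : Fin n × Fin n × (Fin n × Fin n) //
          Pool.Agent.N345.Mann.Fail u q.1 q.2.1 q.2.2.1 q.2.2.2} := by
      rw [Nat.card_eq_fintype_card, Fintype.card_subtype, Pool.Agent.N345.Mann.F]
      simp_rw [Finset.card_filter, Fintype.sum_prod_type]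
    rw [e1]
    choose W hW1 hW2 using fun q : {q : Fin n × Fin n × (Fin n × Fin n) //
          Pool.Agent.N345.Mann.Fail u q.1 q.2.1 q.2.2.1 q.2.2.2} => q.2
    refine Nat.card_le_card_of_injective (fun q => ⟨(![q.1.1, q.1.2.1, W q],
      ![u q.1.2.1 q.1.2.2.1, u q.1.1 (u q.1.2.1 q.1.2.2.1), u q.1.2.1 q.1.2.2.2,
        u q.1.1 (u q.1.2.1 q.1.2.2.2)]), ?_⟩) ?_
    · refine ⟨?_, ?_, ?_, ?_⟩
      · exact (hua _ _).symm
      · exact (hua _ _).symm
      · change L q.1.2.1 (u q.1.2.1 q.1.2.2.1) = L (W q) (u q.1.1 (u q.1.2.1 q.1.2.2.1))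
        rw [hua, ← hW1 q, hua]
      · change L q.1.2.1 (u q.1.2.1 q.1.2.2.2) ≠ L (W q) (u q.1.1 (u q.1.2.1 q.1.2.2.2))
        rw [hua]
        intro h
        exact hW2 q (huq _ _ _ h)
    · rintro ⟨⟨s, t, x, y⟩, hq⟩ ⟨⟨s', t', x', y'⟩, hq'⟩ h
      simp only [Subtype.mk.injEq, Prod.mk.injEq] at h
      obtain ⟨h1, h2⟩ := h
      have a1 : s = s' := congrFun h1 0
      have a2 : t = t' := congrFun h1 1
      subst a1
      subst a2
      have a3 : u t x = u t x' := congrFun h2 0
      have a4 : u t y = u t y' := congrFun h2 2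
      have a5 := (u t).injective a3
      have a6 := (u t).injective a4
      subst a5
      subst a6
      rfl
  refine ⟨main, ?_⟩
  have e1 : Nat.card {x : Fin n × (Fin 3 → Fin n) × (Fin 4 → Fin n) //
      Violates L x.1 (x.2.1 0) (x.2.1 1) (x.2.1 2) (x.2.2 0) (x.2.2 1) (x.2.2 2) (x.2.2 3)} =
      ∑ r₁, Nat.card {x : (Fin 3 → Fin n) × (Fin 4 → Fin n) //
        Violates L r₁ (x.1 0) (x.1 1) (x.1 2) (x.2 0) (x.2 1) (x.2 2) (x.2 3)} := by
    rw [Nat.card_eq_fintype_card, Fintype.card_subtype, Finset.card_filter,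
      Fintype.sum_prod_type]
    refine Finset.sum_congr rfl fun r _ => ?_
    rw [Nat.card_eq_fintype_card, Fintype.card_subtype, Finset.card_filter]
  rw [e1, Finset.mul_sum]
  have e2 : n ^ 4 = ∑ _r : Fin n, n ^ 3 := by
    rw [Finset.sum_const, Finset.card_univ, Fintype.card_fin, smul_eq_mul]
    ring
  rw [e2]
  exact Finset.sum_le_sum fun r _ => main r

end Pool.Agent.Results.MP_c7a479_co.QuadrangleViolations
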