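import Mathlib
import Pool.Agent.N345.Mann.Bridge
import Pool.Agent.N345.Mann.Cyclic

set_option autoImplicit false

/-!
# Dimension two, order `n = 0 mod 4`: a robust Hall-Paige obstruction

A latin square of order `n = 0 mod 4` which has an orthogonal mate and which violates the quadrangle
criterion fewer than `n ^ 3 / 32` times in a row has fewer than `n / 8` odd rows.
-/

namespace Pool.Agent.Results.MP_c7a479_co.RobustHallPaige

/-- `L` is a latin square of order `n` (a two-dimensional permutation cube): `L r c` is the symbol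
in row `r` and column `c`. -/
structure IsLatin {n : ℕ} (L : Fin n → Fin n → Fin n) : Prop where
  row : ∀ r, Function.Bijective (L r)
  col : ∀ c, Function.Bijective fun r => L r c

/-- `L` and `M` are orthogonal (form a variational cube): every ordered pair of symbols is obtained
at exactly one cell. -/
def Orthogonal {n : ℕ} (L M : Fin n → Fin n → Fin n) : Prop :=
  Function.Bijective fun x : Fin n × Fin n => (L x.1 x.2, M x.1 x.2)

/-- The rows `r₁, r₂, r₃, r₄` and the columns `c₁, c₂, c₃, c₄` violate the quadrangle criterion. -/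
def Violates {n : ℕ} (L : Fin n → Fin n → Fin n) (r₁ r₂ r₃ r₄ c₁ c₂ c₃ c₄ : Fin n) : Prop :=
  L r₁ c₁ = L r₂ c₂ ∧ L r₁ c₃ = L r₂ c₄ ∧ L r₃ c₁ = L r₄ c₂ ∧ L r₃ c₃ ≠ L r₄ c₄

/-- The number of violations of the quadrangle criterion with first row `r₁`. -/
noncomputable def violations {n : ℕ} (L : Fin n → Fin n → Fin n) (r₁ : Fin n) : ℕ :=
  Nat.card {x : (Fin 3 → Fin n) × (Fin 4 → Fin n) //
    Violates L r₁ (x.1 0) (x.1 1) (x.1 2) (x.2 0) (x.2 1) (x.2 2) (x.2 3)}

/-- The number of rows `s` which are odd with respect to the row `r`: the permutation of the columns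
that carries row `r` to row `s` is odd. -/
noncomputable def oddRows {n : ℕ} (L : Fin n → Fin n → Fin n) (r : Fin n) : ℕ :=
  Nat.card {s : Fin n // ∃ σ : Equiv.Perm (Fin n), (∀ c, L s (σ c) = L r c) ∧
    Equiv.Perm.sign σ = -1}

/-- Let `n > 0` be divisible by `4` and let `L` be a latin square of order `n` which is orthogonal
to some latin square `M`. For every row `r`, there are at least `n ^ 3 / 32` violations of the
quadrangle criterion with first row `r`, or there are fewer than `n / 8` rows which are odd with
respect to `r`. -/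
theorem result (n : ℕ) (hn : n % 4 = 0) (hn0 : 0 < n) (L M : Fin n → Fin n → Fin n)
    (hL : IsLatin L) (hM : IsLatin M) (hLM : Orthogonal L M) (r : Fin n) :
    n ^ 3 ≤ 32 * violations L r ∨ 8 * oddRows L r < n := by
  classical
  obtain ⟨u, hu, hua, hF⟩ := Pool.Agent.N345.Mann.bridge L hL.row hL.col r
  have h1 := Pool.Agent.N345.Mann.many_fail' hu (n := n) (Nat.even_iff.2 (by omega)) hn0
    hM.row (fun c s t h => (hM.col c).1 h) (by
      intro s t c d h1 d' h2 h3
      have e1 : L s d = L t d' := by rw [← h1, ← h2, hua, hua]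
      have e2 := hLM.1 (a₁ := (s, d)) (a₂ := (t, d')) (Prod.ext e1 h3)
      exact congrArg Prod.fst e2)
  rcases h1 with h1 | h1
  · exact Or.inl (h1.trans (Nat.mul_le_mul_left 32 hF))
  · refine Or.inr (lt_of_le_of_lt (Nat.mul_le_mul_left 8 ?_) h1)
    rw [oddRows, Nat.card_eq_fintype_card, Fintype.card_subtype]
    refine Finset.card_le_card fun s hs => ?_
    rw [Finset.mem_filter] at hs ⊢
    obtain ⟨-, σ, hσ, hs⟩ := hs
    refine ⟨Finset.mem_univ _, ?_⟩
    have : u s = σ := by
      ext c
      have : u s c = σ c := by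
        apply (hL.row s).1
        rw [hua, hσ]
      rw [this]
    rw [this, hs]

end Pool.Agent.Results.MP_c7a479_co.RobustHallPaige
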